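import Pool.Agent.H44.KJ.Cover
import Pool.Agent.H53.KJ.Jadd

/-!
# LEMMA J: the step

`JCoreStmt`: there is a row `r₂` followed by a mesh row with own-visibility such that the difference
of the two leaves is small at the row `r₂`.
-/

set_option autoImplicit false

namespace Pool.KJ

open Finset Real
open Pool.Agent.H49.Ent Pool.Agent.H32.Dense Pool.STK Pool.KAF Pool.KAL Pool.KST Pool.KS3

section

variable {n a L : ℕ} {C₀ : ℝ} {k₀ : ℕ} {κ γ N : ℕ} {δ ε e₁ e₃ : ℝ}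
    {Ω Λ Ξ Z β : Type} [Fintype Ω] {p : Ω → ℝ} {lam : Ω → Λ} {x : Ω → Ξ} {T : Ξ → ℕ}
    {pos : Ξ → Option (Fin n) → ℕ} {A B : Λ → Option (Fin n) → ℝ} {zx : Ξ → Z}
    {zl : Λ → ℕ → Z} {cz : Z → Option (Fin n) → ℕ} {G : Z → MvPolynomial (Fin n) ℝ}
    {e : Ξ → ℝ}

/-- In `StepH` the numbers `κ` and `N` are free. -/
lemma stepH_cast (h : StepH n a L C₀ k₀ κ γ N δ ε e₁ e₃ p lam x T pos A B zx zl cz G e)
    {κ' : ℕ} (N' : ℕ) (hκ : 1 ≤ κ') :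
    StepH n a L C₀ k₀ κ' γ N' δ ε e₁ e₃ p lam x T pos A B zx zl cz G e :=
  ⟨h.step, h.reg, h.gr, h.hδ, h.he, h.hex, h.hnc, h.hγ, hκ, h.he₁, h.he₁0, h.he₃⟩

lemma OV_mono {wz : Ξ → β} {r r' : ℕ} {eo eo' : ℝ} (h : OV p x L pos wz zx G r r' eo)
    (he : eo ≤ eo') : OV p x L pos wz zx G r r' eo' := by
  obtain ⟨W, cd, h1, h2⟩ := h
  exact ⟨W, cd, h1, h2.trans he⟩

end

/-- The base coordinates are full given the leaf. -/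
lemma ful_le (n : ℕ) (C₀ : ℝ) (hC₀ : 1 ≤ C₀) : ∃ Cu : ℝ, 0 ≤ Cu ∧
    ∀ (a L : ℕ) (Ω Λ Ξ Z : Type) [Fintype Ω] (p : Ω → ℝ) (lam : Ω → Λ)
      (x : Ω → Ξ) (T : Ξ → ℕ) (pos : Ξ → Option (Fin n) → ℕ) (A B : Λ → Option (Fin n) → ℝ)
      (zx : Ξ → Z) (zl : Λ → ℕ → Z) (cz : Z → Option (Fin n) → ℕ)
      (G : Z → MvPolynomial (Fin n) ℝ) (k₀ κ γ N κ' : ℕ) (δ ε e₁ e₃ : ℝ) (e : Ξ → ℝ),
      StepH n a L C₀ k₀ κ γ N δ ε e₁ e₃ p lam x T pos A B zx zl cz G e → 1 ≤ κ' →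
      n * (L * Real.log 2) - CH p (fun ω => bas pos (x ω)) (fun ω => zx (x ω)) ≤
        n * e₁ + Cu * (L / κ' + γ + κ' + 1 + ε * L) := by
  have h3C : (1 : ℝ) ≤ 3 * C₀ := by linarith
  obtain ⟨Cu, hCu, hful⟩ := fulh_thm n (3 * C₀) h3C
  refine ⟨Cu, hCu, ?_⟩
  intro a L Ω Λ Ξ Z _ p lam x T pos A B zx zl cz G k₀ κ γ N κ' δ ε e₁ e₃ e hF hκ'
  have hp := hF.step.leaf.isLaw
  have hp0 := hp.nonneg
  have hγ3 : n.factorial * (3 * C₀) ^ n ≤ δ ^ n * 2 ^ γ := by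
    refine le_trans ?_ hF.hγ
    have h1 : (0 : ℝ) ≤ n.factorial := Nat.cast_nonneg _
    refine mul_le_mul_of_nonneg_left ?_ h1
    exact pow_le_pow_left₀ (by linarith) (by linarith) _
  have hfu := hful Ω (Λ × ℕ) Ξ Z p (lamS lam x T L) x (TS T L) (posS pos L)
    (AS A B zl cz a) (BS B) zx (fun l => zl l.1 l.2) L κ' γ δ ε e₁ e (hF.step.small hC₀)
    (fun ω _ => hF.step.lab ω) hF.hδ hF.he hF.hex (NCF_small hF.hnc) hγ3 hκ' hF.he₁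
  have h1 : CH p (fun ω => bas (posS pos L) (x ω)) (fun ω => zx (x ω)) ≤
      CH p (fun ω => bas pos (x ω)) (fun ω => zx (x ω)) := by
    refine CH_mono_left hp0 ?_
    intro ω ω' _ _ hh
    have h1 := (Prod.ext_iff.mp hh).1
    funext i
    have h2 : bas pos (x ω) i = bas pos (x ω') i := congrFun h1 i
    have h3 : pos (x ω) (some i) = pos (x ω') (some i) := h2
    have h4 : pos (x ω) (some i) % 2 ^ L = pos (x ω') (some i) % 2 ^ L := by rw [h3]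
    exact h4
  linarith

/-- The core of the step: a row `r₂` where the difference of the two leaves is small. -/
def JCoreStmt : Prop :=
  ∀ (n D u : ℕ) (C₀ c : ℝ), 1 ≤ n → 1 ≤ C₀ → 0 < c → c ≤ 1 → ∃ w₀ : ℕ, ∀ w ≥ w₀,
    ∃ Cr₀ : ℕ, 1 ≤ Cr₀ ∧ ∀ Cr ≥ Cr₀, ∀ k₀ E : ℕ, 1 ≤ E → ∃ M₀ : ℕ, ∀ M ≥ M₀,
    ∃ (η₁ : ℝ) (m₀ : ℕ), 0 < η₁ ∧
    ∀ (η : ℝ) (κ₀ N₀ m e₀ L : ℕ) (Ω Λ Ξ Z β : Type) [Fintype Ω] (p : Ω → ℝ) (lam : Ω → Λ)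
      (x : Ω → Ξ) (T : Ξ → ℕ) (pos : Ξ → Option (Fin n) → ℕ) (A B : Λ → Option (Fin n) → ℝ)
      (zx : Ξ → Z) (zl : Λ → ℕ → Z) (cz : Z → Option (Fin n) → ℕ)
      (G : Z → MvPolynomial (Fin n) ℝ) (wz : Z → β) (wl : Λ → β) (γ : ℕ) (δ ε e₁ e₃ : ℝ)
      (e : Ξ → ℝ),
      η ≤ η₁ → m₀ ≤ m → e₀ = M * m → m ∣ L → Cr * e₀ ≤ L → L ≤ E * e₀ →
      e₁ ≤ η * e₀ → e₃ ≤ η * e₀ → γ ≤ η * e₀ → ε ≤ η →
      StepH n (3 * e₀) L C₀ k₀ κ₀ γ N₀ δ ε e₁ e₃ p lam x T pos A B zx zl cz G e →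
      (∀ ω, 0 < p ω → ¬ Bad (G (zx (x ω))) (fun _ => 0) 1 D (2 ^ (u * e₀) / 2 ^ L)) →
      (∀ ω, 0 < p ω → wz (zx (x ω)) = wl (lam ω)) →
      (((3 * e₀ + L : ℕ) : ℝ) * Real.log 2 - CH p (fun ω => T (x ω)) lam ≤ η * e₀) →
      CH p x (fun ω => (pos (x ω), wz (zx (x ω)))) ≤ (n + 1) * e₀ →
      (∀ k k', k ≤ k' → m * k' ≤ L → Sup p x L pos (fun ξ => wz (zx ξ)) (m * k) (m * k')
        (hrw p x L pos (fun ξ => wz (zx ξ)) (m * k) (m * k') + η * e₀)) →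
      (∀ k, m * (k + 1) ≤ L →
        OV p x L pos (fun ξ => wz (zx ξ)) zx G (m * k) (m * (k + 1)) (η * e₀) ∨
        (1 - 1 / w) * (m * Real.log 2) ≤
          hrw p x L pos (fun ξ => wz (zx ξ)) (m * k) (m * (k + 1))) →
      hrw p x L pos (fun ξ => wz (zx ξ)) (L - Cr * e₀) L ≤
        (1 - c) * (Cr * e₀ * Real.log 2) →
      ∃ (Q : Z → MvPolynomial (Option (Fin n)) ℝ) (r₂ : ℕ),
        (∀ ζ, Q ζ ≠ 0 ∧ (Q ζ).totalDegree ≤ D) ∧ m ∣ r₂ ∧ r₂ + m ≤ L ∧ L ≤ r₂ + Cr * e₀ ∧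
        OV p x L pos (fun ξ => wz (zx ξ)) zx G r₂ (r₂ + m) (η * e₀) ∧
        Pe (dbl p lam) (fun v =>
          ¬ Th D r₂ (Mj (3 * e₀) L pos zx cz G Q 0 (zx (x v.1)) (x v.2))) ≤ 1 / 16

/-- The numerical contradiction. -/
lemma jnum {c w A₀ Cr M X : ℝ} (hc : 0 < c) (hc1 : c ≤ 1) (hw0 : 0 < w) (hw : 10 / c ≤ w)
    (hA : 0 ≤ A₀) (hCr : 2 * (A₀ + 3) / c < Cr) (hM : 1 ≤ M)
    (h1 : (1 - 5 / w) * (Cr * M - M - A₀ * M - 1) ≤ X + 1) (h2 : X ≤ (1 - c) * (Cr * M)) :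
    False := by
  have hw5 : 5 / w ≤ c / 2 := by
    rw [div_le_iff₀ hc] at hw
    rw [div_le_iff₀ hw0]
    linarith
  have hCr' : A₀ + 3 < c / 2 * Cr := by
    rw [div_lt_iff₀ hc] at hCr
    linarith
  have h3 : (Cr - A₀ - 2) * M ≤ Cr * M - M - A₀ * M - 1 := by nlinarith
  have hCrA : 0 ≤ Cr - A₀ - 2 := by
    have : c / 2 * Cr ≤ Cr := by
      have : 0 ≤ Cr := by
        by_contra hh
        push Not at hh
        nlinarith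
      nlinarith
    linarith
  have h4 : (1 - c / 2) * ((Cr - A₀ - 2) * M) ≤ (1 - 5 / w) * (Cr * M - M - A₀ * M - 1) := by
    have h5 : 0 ≤ (Cr - A₀ - 2) * M := mul_nonneg hCrA (by linarith)
    calc (1 - c / 2) * ((Cr - A₀ - 2) * M) ≤ (1 - 5 / w) * ((Cr - A₀ - 2) * M) :=
          mul_le_mul_of_nonneg_right (by linarith) h5
      _ ≤ _ := mul_le_mul_of_nonneg_left h3 (by linarith)
  have h6 : (1 - c / 2) * ((Cr - A₀ - 2) * M) ≤ (1 - c) * (Cr * M) + M := by linarith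
  have h7 : ((1 - c / 2) * (Cr - A₀ - 2) - (1 - c) * Cr - 1) * M ≤ 0 := by
    have e : ((1 - c / 2) * (Cr - A₀ - 2) - (1 - c) * Cr - 1) * M =
      (1 - c / 2) * ((Cr - A₀ - 2) * M) - (1 - c) * (Cr * M) - M := by ring
    rw [e]
    linarith
  have h8 : 0 < (1 - c / 2) * (Cr - A₀ - 2) - (1 - c) * Cr - 1 := by
    have e : (1 - c / 2) * (Cr - A₀ - 2) - (1 - c) * Cr - 1 =
      c / 2 * Cr - (A₀ + 3) + c / 2 * (A₀ + 2) := by ring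
    rw [e]
    have : 0 ≤ c / 2 * (A₀ + 2) := by positivity
    linarith
  have h9 := mul_pos h8 (by linarith : (0 : ℝ) < M)
  linarith

end Pool.KJ
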