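import Pool.Agent.H50.KJ.J46

/-!
# LEMMA J: the covering of the rows

Pure part of JSTEP. `H k k'` is the normalised entropy of the mesh rows `(k, k']`.
-/

set_option autoImplicit false

namespace Pool.KJ

open Finset Real

/-- Rows without own-visibility are saturated, hence so is a run of such rows. -/
lemma run_full (H : ℕ → ℕ → ℝ) (Lm w : ℕ) (er : ℝ) (h0 : ∀ k k', 0 ≤ H k k')
    (hadd : ∀ a b c, a ≤ b → b ≤ c → c ≤ Lm → H a b + H b c ≤ H a c + er) (a : ℕ) :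
    ∀ d : ℕ, a + d ≤ Lm → (∀ k, a ≤ k → k < a + d → 1 - 1 / (w : ℝ) ≤ H k (k + 1)) →
      (1 - 1 / (w : ℝ)) * d ≤ H a (a + d) + d * er := by
  intro d
  induction d with
  | zero =>
    intro _ _
    have := h0 a (a + 0)
    push_cast
    linarith only [this]
  | succ d ih =>
    intro hd hk
    have h1 := ih (by omega) (fun k hk1 hk2 => hk k hk1 (by omega))
    have h2 := hk (a + d) (by omega) (by omega)
    have h3 := hadd a (a + d) (a + d + 1) (by omega) (by omega) (by omega)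
    have e : a + (d + 1) = a + d + 1 := by omega
    rw [e]
    push_cast
    have e2 : (1 - 1 / (w : ℝ)) * (d + 1) = (1 - 1 / (w : ℝ)) * d + (1 - 1 / (w : ℝ)) := by ring
    rw [e2]
    linarith only [h1, h2, h3]

/-- **The covering.** -/
theorem cover (H : ℕ → ℕ → ℝ) (OVp : ℕ → Prop) (Lm k₁ k₂ M A₀ w : ℕ) (er e₂ : ℝ)
    (hw : 5 ≤ w) (hM : w ^ 2 * (1 + e₂) ≤ M) (her : 0 ≤ er) (he₂ : 0 ≤ e₂)
    (her2 : (A₀ * M + 2) * er ≤ 1)
    (h0 : ∀ k k', 0 ≤ H k k')
    (hadd : ∀ a b c, a ≤ b → b ≤ c → c ≤ Lm → H a b + H b c ≤ H a c + er)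
    (hOV : ∀ k, k + 1 ≤ Lm → OVp k ∨ 1 - 1 / (w : ℝ) ≤ H k (k + 1))
    (hk1 : k₁ ≤ k₂) (hk2 : k₂ ≤ Lm) (hno : ∀ k, k₁ ≤ k → k < k₂ → ¬ OVp k)
    (hcore : ∀ k, k₂ + M ≤ k → k + A₀ * M ≤ Lm → ∃ P, M ≤ P ∧ P ≤ A₀ * M ∧
      ∀ j : ℕ, P ≤ w * j → j ≤ P → OVp (k + j) → k + j + 1 ≤ Lm →
        (1 - 4 / (w : ℝ)) * j ≤ H k (k + j + 1) + e₂) :
    (1 - 5 / (w : ℝ)) * ((Lm : ℝ) - k₁ - M - A₀ * M - 1) ≤ H k₁ Lm + (2 * Lm + 3) * er := by
  have hw0 : (0 : ℝ) < w := by
    have : 0 < w := by omega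
    exact_mod_cast this
  have hw5 : (5 : ℝ) ≤ w := by exact_mod_cast hw
  have hε1 : 5 / (w : ℝ) ≤ 1 := by rw [div_le_one hw0]; exact hw5
  have hε0 : 0 ≤ 5 / (w : ℝ) := by positivity
  have h1w : 0 ≤ 1 / (w : ℝ) := by positivity
  have h15 : 1 / (w : ℝ) ≤ 5 / w := by
    refine div_le_div_of_nonneg_right (by norm_num) hw0.le
  have hMr : (w : ℝ) ^ 2 ≤ M := by
    refine le_trans ?_ hM
    have : 0 ≤ (w : ℝ) ^ 2 * e₂ := by positivity
    linarith only [this]
  -- the blocks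
  have hblk : ∀ k : ℕ, k₂ + M ≤ k → k + (A₀ * M + 1) ≤ Lm → ∃ k' : ℕ, k < k' ∧
      k' ≤ k + (A₀ * M + 1) ∧ (1 - 5 / (w : ℝ)) * ((k' : ℝ) - k) ≤ H k k' := by
    intro k hk hkL
    obtain ⟨P, hP1, hP2, hP⟩ := hcore k hk (by omega)
    have hP1r : (M : ℝ) ≤ P := by exact_mod_cast hP1
    have hP2r : (P : ℝ) ≤ A₀ * M := by exact_mod_cast hP2
    have hPw : (w : ℝ) ^ 2 * (1 + e₂) ≤ P := hM.trans hP1r
    have hP0 : (0 : ℝ) ≤ P := Nat.cast_nonneg P
    have hwn : 0 < w := by omega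
    obtain ⟨q, hqd⟩ : ∃ q, q = P / w := ⟨_, rfl⟩
    have hqP : q ≤ P := by
      rw [hqd]
      exact Nat.div_le_self P w
    by_cases c : ∃ j : ℕ, q + 1 ≤ j ∧ j ≤ P ∧ OVp (k + j)
    · obtain ⟨j, hj1, hj2, hj3⟩ := c
      have hPj : P ≤ w * j := by
        have h1 := Nat.div_add_mod P w
        have h2 := Nat.mod_lt P hwn
        rw [← hqd] at h1
        have h3 : w * (q + 1) ≤ w * j := Nat.mul_le_mul_left _ hj1
        have h4 : w * (q + 1) = w * q + w := by ring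
        omega
      have hkj : k + j + 1 ≤ Lm := by omega
      have h1 := hP j hPj hj2 hj3 hkj
      refine ⟨k + j + 1, by omega, by omega, ?_⟩
      have hPj' : (P : ℝ) ≤ w * j := by exact_mod_cast hPj
      have h2 : (1 + e₂) ≤ j / w := by
        rw [le_div_iff₀ hw0]
        have h3 : (w : ℝ) ^ 2 * (1 + e₂) ≤ w * j := hPw.trans hPj'
        have h4 : (w : ℝ) * (w * (1 + e₂)) ≤ w * j := by
          have e : (w : ℝ) ^ 2 * (1 + e₂) = w * (w * (1 + e₂)) := by ring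
          rw [← e]
          exact h3
        have h5 := le_of_mul_le_mul_left h4 hw0
        linarith only [h5]
      push_cast
      have e : (1 - 5 / (w : ℝ)) * ((k : ℝ) + j + 1 - k) =
          (1 - 4 / (w : ℝ)) * j - j / w + (1 - 5 / (w : ℝ)) := by
        field_simp
        ring
      rw [e]
      linarith only [hε0, h1, h2]
    · push Not at c
      have hrun := run_full H Lm w er h0 hadd (k + (q + 1)) (P + 1 - (q + 1)) (by omega) (by
        intro i hi1 hi2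
        rcases hOV i (by omega) with h | h
        · exfalso
          have h3 := c (i - k) (by omega) (by omega)
          have e : k + (i - k) = i := by omega
          rw [e] at h3
          exact h3 h
        · exact h)
      have e1 : k + (q + 1) + (P + 1 - (q + 1)) = k + P + 1 := by omega
      rw [e1] at hrun
      have h3 := hadd k (k + (q + 1)) (k + P + 1) (by omega) (by omega) (by omega)
      have h4 := h0 k (k + (q + 1))
      refine ⟨k + P + 1, by omega, by omega, ?_⟩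
      have e2 : ((P + 1 - (q + 1) : ℕ) : ℝ) = (P : ℝ) - (q : ℝ) := by
        have e3 : P + 1 - (q + 1) = P - q := by omega
        rw [e3, Nat.cast_sub hqP]
      rw [e2] at hrun
      have h5 : (q : ℝ) ≤ P / w := by
        rw [le_div_iff₀ hw0]
        have h51 := Nat.div_mul_le_self P w
        rw [← hqd] at h51
        exact_mod_cast h51
      have h50 : (0 : ℝ) ≤ (q : ℝ) := Nat.cast_nonneg _
      have h6 : ((P : ℝ) - (q : ℝ)) * er + er ≤ 1 := by
        have h7 : ((P : ℝ) - (q : ℝ)) * er + er ≤ (A₀ * M + 2) * er := by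
          have e : ((P : ℝ) - (q : ℝ)) * er + er =
            ((P : ℝ) - (q : ℝ) + 1) * er := by ring
          rw [e]
          exact mul_le_mul_of_nonneg_right (by linarith only [hP2r]) her
        linarith only [her2, h7]
      have h7 : (1 - 1 / (w : ℝ)) * ((P : ℝ) - P / w) ≤
          (1 - 1 / (w : ℝ)) * ((P : ℝ) - (q : ℝ)) :=
        mul_le_mul_of_nonneg_left (by linarith only [h5]) (by linarith only [hε1, h15])
      have h8 : (P : ℝ) - 2 * (P / w) ≤ (1 - 1 / (w : ℝ)) * ((P : ℝ) - P / w) := by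
        have e : (1 - 1 / (w : ℝ)) * ((P : ℝ) - P / w) = (P : ℝ) - 2 * (P / w) + P / w ^ 2 := by
          field_simp
          ring
        rw [e]
        have : 0 ≤ (P : ℝ) / w ^ 2 := by positivity
        linarith only [this]
      have h9 : 5 ≤ (P : ℝ) / w := by
        rw [le_div_iff₀ hw0]
        have h10 : (w : ℝ) ^ 2 ≤ P := hMr.trans hP1r
        nlinarith only [hMr, hP1r, hw5]
      push_cast
      have e : (1 - 5 / (w : ℝ)) * ((k : ℝ) + P + 1 - k) =
          P - 5 * (P / w) + (1 - 5 / (w : ℝ)) := by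
        field_simp
        ring
      rw [e]
      linarith only [hε0, hrun, h3, h4, h6, h7, h8, h9]
  have hj6 := j6 H (k₂ + M) Lm (A₀ * M + 1) (5 / w) er hε1 her h0 hadd hblk
  have hrun := run_full H Lm w er h0 hadd k₁ (k₂ - k₁) (by omega) (by
    intro i hi1 hi2
    rcases hOV i (by omega) with h | h
    · exact absurd h (hno i hi1 (by omega))
    · exact h)
  have e1 : k₁ + (k₂ - k₁) = k₂ := by omega
  rw [e1, Nat.cast_sub hk1] at hrun
  have hk1r : (k₁ : ℝ) ≤ k₂ := by exact_mod_cast hk1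
  have hk2r : (k₂ : ℝ) ≤ Lm := by exact_mod_cast hk2
  have hk10 : (0 : ℝ) ≤ k₁ := Nat.cast_nonneg _
  have hLm0 : (0 : ℝ) ≤ Lm := Nat.cast_nonneg _
  have hM0 : (0 : ℝ) ≤ M := Nat.cast_nonneg _
  have hA0 : (0 : ℝ) ≤ A₀ := Nat.cast_nonneg _
  have hAM : 0 ≤ (A₀ : ℝ) * M := by positivity
  have hrun' : (1 - 5 / (w : ℝ)) * ((k₂ : ℝ) - k₁) ≤ H k₁ k₂ + Lm * er := by
    have h1 : (1 - 5 / (w : ℝ)) * ((k₂ : ℝ) - k₁) ≤ (1 - 1 / (w : ℝ)) * ((k₂ : ℝ) - k₁) :=
      mul_le_mul_of_nonneg_right (by linarith only [h15]) (by linarith only [hk1r])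
    have h2 : ((k₂ : ℝ) - k₁) * er ≤ Lm * er := mul_le_mul_of_nonneg_right (by linarith only [hk2r]) her
    linarith only [hrun, h1, h2]
  have h12 := hadd k₁ k₂ Lm hk1 hk2 le_rfl
  by_cases c : k₂ + M ≤ Lm
  · have h2 := hadd k₂ (k₂ + M) Lm (by omega) c le_rfl
    have h3 := h0 k₂ (k₂ + M)
    push_cast at hj6
    have e : (1 - 5 / (w : ℝ)) * ((Lm : ℝ) - k₁ - M - A₀ * M - 1) =
        (1 - 5 / (w : ℝ)) * ((k₂ : ℝ) - k₁) +
          (1 - 5 / (w : ℝ)) * ((Lm : ℝ) - (k₂ + M) - (A₀ * M + 1)) := by ring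
    rw [e]
    have e3 : (2 * (Lm : ℝ) + 3) * er = Lm * er + (Lm + 1) * er + er + er := by ring
    rw [e3]
    linarith only [hrun', h12, h2, h3, hj6]
  · push Not at c
    have c' : (Lm : ℝ) < k₂ + M := by exact_mod_cast c
    have h3 := h0 k₂ Lm
    have h4 : (1 - 5 / (w : ℝ)) * ((Lm : ℝ) - k₁ - M - A₀ * M - 1) ≤
        (1 - 5 / (w : ℝ)) * ((k₂ : ℝ) - k₁) :=
      mul_le_mul_of_nonneg_left (by linarith only [hAM, c']) (by linarith only [hε1])
    have e3 : (2 * (Lm : ℝ) + 3) * er = Lm * er + Lm * er + er + er + er := by ring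
    have h5 : 0 ≤ Lm * er := by positivity
    rw [e3]
    linarith only [her, hrun', h12, h3, h4, h5]

end Pool.KJ
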