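import Pool.Agent.H44.KJ.Core

/-!
# LEMMA J: the core of the step
-/

set_option autoImplicit false

namespace Pool.KJ

open Finset Real
open Pool.Agent.H49.Ent Pool.Agent.H32.Dense Pool.STK Pool.KAF Pool.KAL Pool.KST Pool.KS3

/-- **The core of the step.** -/
theorem jcore (hQDE : QDEStmt) (hJC : JCStmt) : JCoreStmt := by
  classical
  intro n D u C₀ c hn hC₀ hc hc1
  obtain ⟨CD, hCD, hQDE⟩ := hQDE n D u C₀ hn hC₀
  obtain ⟨Cu, hCu, hful⟩ := ful_le n C₀ hC₀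
  obtain ⟨Ca, hCa, hadd⟩ := jadd_thm n C₀ hC₀
  refine ⟨max 5 ⌈10 / c⌉₊, ?_⟩
  intro w hw
  have hw5 : 5 ≤ w := le_trans (le_max_left _ _) hw
  have hwc : 10 / c ≤ w := by
    have h1 : ⌈10 / c⌉₊ ≤ w := le_trans (le_max_right _ _) hw
    exact (Nat.le_ceil _).trans (by exact_mod_cast h1)
  have hw0 : (0 : ℝ) < w := by
    have : 0 < w := by omega
    exact_mod_cast this
  obtain ⟨A₀, hA₀, hJC⟩ := hJC n D u w C₀ CD hn hC₀ (by omega)
  refine ⟨⌈2 * ((A₀ : ℝ) + 3) / c⌉₊ + u + 2, by omega, ?_⟩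
  intro Cr hCr k₀ E hE
  obtain ⟨M₁, hJC⟩ := hJC k₀ E hE
  refine ⟨max (max M₁ 1) (2 * w ^ 2), ?_⟩
  intro M hM
  have hM1 : M₁ ≤ M := le_trans (le_trans (le_max_left _ _) (le_max_left _ _)) hM
  have hM2 : 1 ≤ M := le_trans (le_trans (le_max_right _ _) (le_max_left _ _)) hM
  have hM3 : 2 * w ^ 2 ≤ M := le_trans (le_max_right _ _) hM
  have hM2r : (1 : ℝ) ≤ M := by exact_mod_cast hM2
  have hM3r : 2 * (w : ℝ) ^ 2 ≤ M := by exact_mod_cast hM3
  obtain ⟨η₂, κ₂, N₂, m₂, hη₂, hκ₂, hJC⟩ := hJC M hM1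
  obtain ⟨η₃, κ₃, N₃, m₃, hη₃, hκ₃, hQDE⟩ := hQDE k₀ E M hE hM2
  have hn0 : (0 : ℝ) ≤ n := Nat.cast_nonneg n
  have hE0 : (0 : ℝ) ≤ E := Nat.cast_nonneg E
  have hA0 : (0 : ℝ) ≤ A₀ := Nat.cast_nonneg A₀
  -- the constants
  obtain ⟨Bc, hBc⟩ : ∃ Bc : ℝ, Bc = 2 * E * M + 3 + (A₀ * M + 2) := ⟨_, rfl⟩
  have hBc1 : 1 ≤ Bc := by
    rw [hBc]
    have h1 : 0 ≤ 2 * (E : ℝ) * M := by positivity
    have h2 : 0 ≤ (A₀ : ℝ) * M := by positivity
    linarith only [h1, h2]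
  have hBc0 : 0 < Bc := by linarith only [hBc1]
  obtain ⟨κ, hκd⟩ : ∃ κ : ℕ, κ = ⌈8 * Bc * Cu * E * M⌉₊ + 1 := ⟨_, rfl⟩
  have hκ1 : 1 ≤ κ := by omega
  have hκ0 : (0 : ℝ) < κ := by exact_mod_cast hκ1
  have hκr : 8 * Bc * Cu * E * M ≤ κ := by
    have h1 := Nat.le_ceil (8 * Bc * Cu * E * M)
    rw [hκd]
    push_cast
    linarith only [h1]
  obtain ⟨η₄, hη₄d⟩ : ∃ η₄ : ℝ, η₄ = 1 / (8 * Bc * (n + Cu + Cu * E + 1) * M) := ⟨_, rfl⟩
  have hden : 0 < 8 * Bc * (n + Cu + Cu * E + 1) * M := by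
    have : 0 < (n : ℝ) + Cu + Cu * E + 1 := by positivity
    have : (0 : ℝ) < M := by linarith only [hM2r]
    positivity
  have hη₄ : 0 < η₄ := by
    rw [hη₄d]
    positivity
  refine ⟨min (min η₂ η₃) η₄, max (max m₂ m₃) (⌈8 * Bc * (Cu * (κ + 1) + Ca)⌉₊ + 1), by
    refine lt_min (lt_min hη₂ hη₃) hη₄, ?_⟩
  intro η κ₀ N₀ m e₀ L Ω Λ Ξ Z β _ p lam x T pos A B zx zl cz G wz wl γ δ ε e₁ e₃ e
    hη hm he₀ hmL hCrL hLE he₁ he₃ hγ hε hF hbad hwz hT hx hreg hOV hrate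
  have hη2 : η ≤ η₂ := hη.trans ((min_le_left _ _).trans (min_le_left _ _))
  have hη3 : η ≤ η₃ := hη.trans ((min_le_left _ _).trans (min_le_right _ _))
  have hη4 : η ≤ η₄ := hη.trans (min_le_right _ _)
  have hm2 : m₂ ≤ m := le_trans (le_trans (le_max_left _ _) (le_max_left _ _)) hm
  have hm3 : m₃ ≤ m := le_trans (le_trans (le_max_right _ _) (le_max_left _ _)) hm
  have hm4 : ⌈8 * Bc * (Cu * (κ + 1) + Ca)⌉₊ + 1 ≤ m := le_trans (le_max_right _ _) hm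
  have hm1 : 1 ≤ m := by omega
  have hm0 : (0 : ℝ) < m := by exact_mod_cast hm1
  have hm4r : 8 * Bc * (Cu * (κ + 1) + Ca) ≤ m := by
    have h1 := Nat.le_ceil (8 * Bc * (Cu * ((κ : ℝ) + 1) + Ca))
    have h2 : ((⌈8 * Bc * (Cu * ((κ : ℝ) + 1) + Ca)⌉₊ + 1 : ℕ) : ℝ) ≤ m := by exact_mod_cast hm4
    push_cast at h2
    linarith only [h1, h2]
  have he₀r : (e₀ : ℝ) = M * m := by
    rw [he₀]
    push_cast
    ring
  have he₀0 : (0 : ℝ) ≤ e₀ := Nat.cast_nonneg _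
  have hp := hF.step.leaf.isLaw
  have hp0 := hp.nonneg
  have he₁0 := hF.he₁0
  have hε0 := hF.ε_nonneg
  have hη0 : 0 ≤ η := hε0.trans hε
  have hl2 : 0 < Real.log 2 := Real.log_pos (by norm_num)
  have hl2' : (1 / 2 : ℝ) ≤ Real.log 2 := by
    have := Real.log_two_gt_d9
    linarith only [hl2, this]
  have hml : 0 < m * Real.log 2 := by positivity
  -- monotonicity of the small parameters
  have hmono : ∀ {η' : ℝ}, η ≤ η' → η * e₀ ≤ η' * e₀ := fun h =>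
    mul_le_mul_of_nonneg_right h he₀0
  -- the polynomials
  have hCru : u + 1 ≤ Cr := by omega
  have huL : (u + 1) * e₀ ≤ L := le_trans (Nat.mul_le_mul_right _ hCru) hCrL
  obtain ⟨Q, hQ, hcnt, hdep⟩ := hQDE m e₀ L Ω Λ Ξ Z p lam x T pos A B zx zl cz G γ δ ε e₁ e₃ e
    hm3 he₀ huL hLE (he₁.trans (hmono hη3)) (he₃.trans (hmono hη3)) (hγ.trans (hmono hη3))
    (hε.trans hη3) (stepH_cast hF N₃ hκ₃) hbad (hT.trans (hmono hη3))
  -- the rows
  obtain ⟨Lm, hLm⟩ := hmL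
  have hCrM : Cr * M ≤ Lm := by
    rw [hLm, he₀] at hCrL
    have h1 : m * (Cr * M) ≤ m * Lm := by
      have e1 : m * (Cr * M) = Cr * (M * m) := by ring
      rw [e1]
      exact hCrL
    exact Nat.le_of_mul_le_mul_left h1 hm1
  have hLmE : Lm ≤ E * M := by
    rw [hLm, he₀] at hLE
    have h1 : m * Lm ≤ m * (E * M) := by
      have e1 : m * (E * M) = E * (M * m) := by ring
      rw [e1]
      exact hLE
    exact Nat.le_of_mul_le_mul_left h1 hm1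
  have hLr : (L : ℝ) = m * Lm := by
    rw [hLm]
    push_cast
    ring
  have hmk : ∀ {k : ℕ}, k ≤ Lm → m * k ≤ L := fun h => by
    rw [hLm]
    exact Nat.mul_le_mul_left _ h
  -- the fullness of the base coordinates
  obtain ⟨ef, hefd⟩ : ∃ ef : ℝ, ef = n * e₁ + Cu * (L / κ + γ + κ + 1 + ε * L) := ⟨_, rfl⟩
  have hef := hful (3 * e₀) L Ω Λ Ξ Z p lam x T pos A B zx zl cz G k₀ κ₀ γ N₀ κ δ ε e₁ e₃ e hF
    hκ1
  rw [← hefd] at hef
  have hef0 : 0 ≤ ef := by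
    rw [hefd]
    have h1 : (0 : ℝ) ≤ L := Nat.cast_nonneg L
    have h2 : (0 : ℝ) ≤ γ := Nat.cast_nonneg γ
    have h3 : 0 ≤ ε * L := mul_nonneg hε0 h1
    have h4 : 0 ≤ (L : ℝ) / κ := by positivity
    have h5 : 0 ≤ (n : ℝ) * e₁ := mul_nonneg hn0 he₁0
    have h6 : 0 ≤ Cu * (L / κ + γ + κ + 1 + ε * L) := by positivity
    linarith only [h5, h6]
  obtain ⟨er, herd⟩ : ∃ er : ℝ, er = (ef + Ca) / (m * Real.log 2) := ⟨_, rfl⟩
  have her0 : 0 ≤ er := by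
    rw [herd]
    have : 0 ≤ ef + Ca := by linarith only [hCa, hef0]
    positivity
  have hBer : Bc * er ≤ 1 := by
    rw [herd, ← mul_div_assoc, div_le_one hml]
    have hLEr : (L : ℝ) ≤ E * e₀ := by exact_mod_cast hLE
    have hL0 : (0 : ℝ) ≤ L := Nat.cast_nonneg L
    have hLEM : (L : ℝ) ≤ E * (M * m) := by
      rw [he₀r] at hLEr
      exact hLEr
    have h1 : ef + Ca ≤ (n + Cu + Cu * E) * M * m * η + Cu * (L / κ) + (Cu * (κ + 1) + Ca) := by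
      rw [hefd]
      have a1 : (n : ℝ) * e₁ ≤ n * (η * (M * m)) := by
        rw [← he₀r]
        exact mul_le_mul_of_nonneg_left he₁ hn0
      have a2 : Cu * (γ : ℝ) ≤ Cu * (η * (M * m)) := by
        rw [← he₀r]
        exact mul_le_mul_of_nonneg_left hγ hCu
      have a3 : Cu * (ε * L) ≤ Cu * (η * (E * (M * m))) := by
        refine mul_le_mul_of_nonneg_left ?_ hCu
        exact mul_le_mul hε hLEM hL0 hη0
      have e1 : (n + Cu + Cu * E) * M * m * η = n * (η * (M * m)) + Cu * (η * (M * m)) +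
        Cu * (η * (E * (M * m))) := by ring
      rw [e1]
      have e2 : Cu * ((L : ℝ) / κ + γ + κ + 1 + ε * L) = Cu * (L / κ) + Cu * γ +
        Cu * (κ + 1) + Cu * (ε * L) := by ring
      rw [e2]
      linarith only [a1, a2, a3]
    have h2 : Bc * ((n + Cu + Cu * E) * M * m * η) ≤ m / 8 := by
      have b1 : 8 * Bc * (n + Cu + Cu * E + 1) * M * η ≤ 1 := by
        have b2 := mul_le_mul_of_nonneg_left hη4 hden.le
        rw [hη₄d, mul_one_div, div_self hden.ne'] at b2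
        exact b2
      have b3 : 8 * Bc * (n + Cu + Cu * E) * M * η ≤ 1 := by
        refine le_trans ?_ b1
        have b4 : 0 ≤ 8 * Bc * M * η := by positivity
        have e1 : 8 * Bc * (n + Cu + Cu * E + 1) * M * η =
          8 * Bc * (n + Cu + Cu * E) * M * η + 8 * Bc * M * η := by ring
        rw [e1]
        linarith only [b4]
      have b5 := mul_le_mul_of_nonneg_right b3 hm0.le
      have e1 : 8 * Bc * (n + Cu + Cu * E) * M * η * m =
        8 * (Bc * ((n + Cu + Cu * E) * M * m * η)) := by ring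
      rw [e1] at b5
      linarith only [b5]
    have h3 : Bc * (Cu * (L / κ)) ≤ m / 8 := by
      have b1 : Bc * (Cu * (L / κ)) = Bc * Cu * L / κ := by ring
      rw [b1, div_le_iff₀ hκ0]
      have b2 : Bc * Cu * L ≤ Bc * Cu * (E * (M * m)) :=
        mul_le_mul_of_nonneg_left hLEM (by positivity)
      have b3 := mul_le_mul_of_nonneg_right hκr hm0.le
      have e1 : 8 * Bc * Cu * E * M * m = 8 * (Bc * Cu * (E * (M * m))) := by ring
      rw [e1] at b3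
      linarith only [b2, b3]
    have h4 : Bc * (Cu * (κ + 1) + Ca) ≤ m / 8 := by linarith only [hm4r]
    have h5 := mul_le_mul_of_nonneg_left h1 hBc0.le
    have e1 : Bc * ((n + Cu + Cu * E) * M * m * η + Cu * (L / κ) + (Cu * (κ + 1) + Ca)) =
      Bc * ((n + Cu + Cu * E) * M * m * η) + Bc * (Cu * (L / κ)) +
        Bc * (Cu * (κ + 1) + Ca) := by ring
    rw [e1] at h5
    have h6 : m * (1 / 2 : ℝ) ≤ m * Real.log 2 := mul_le_mul_of_nonneg_left hl2' hm0.le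
    linarith only [hm4r, hml, h2, h3, h5, h6]
  -- the normalised entropies
  obtain ⟨H, hH⟩ : ∃ H : ℕ → ℕ → ℝ, H = fun k k' =>
    hrw p x L pos (fun ξ => wz (zx ξ)) (m * k) (m * k') / (m * Real.log 2) := ⟨_, rfl⟩
  have hH0 : ∀ k k', 0 ≤ H k k' := by
    intro k k'
    rw [hH]
    exact div_nonneg (CH_nonneg hp0 _ _) hml.le
  have hHadd : ∀ a b c, a ≤ b → b ≤ c → c ≤ Lm → H a b + H b c ≤ H a c + er := by
    intro a b c hab hbc hcL
    have h1 := hadd (3 * e₀) L k₀ Ω Λ Ξ Z β p lam x T pos A B zx zl cz G wz ef (m * a) (m * b)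
      (m * c) hF.step hF.reg hF.gr hef (Nat.mul_le_mul_left _ hab) (Nat.mul_le_mul_left _ hbc)
      (hmk hcL)
    rw [hH, herd]
    simp only
    rw [← add_div, ← add_div]
    refine div_le_div_of_nonneg_right ?_ hml.le
    linarith only [h1]
  obtain ⟨OVp, hOVp⟩ : ∃ OVp : ℕ → Prop, OVp = fun k => m * (k + 1) ≤ L ∧
    OV p x L pos (fun ξ => wz (zx ξ)) zx G (m * k) (m * (k + 1)) (η * e₀) := ⟨_, rfl⟩
  have hHOV : ∀ k, k + 1 ≤ Lm → OVp k ∨ 1 - 1 / (w : ℝ) ≤ H k (k + 1) := by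
    intro k hk
    rcases hOV k (hmk hk) with h | h
    · left
      rw [hOVp]
      exact ⟨hmk hk, h⟩
    · right
      rw [hH]
      simp only
      rw [le_div_iff₀ hml]
      exact h
  -- the first row with own-visibility
  obtain ⟨k₁, hk₁⟩ : ∃ k₁, k₁ = Lm - Cr * M := ⟨_, rfl⟩
  have hex : ∃ k, k₁ ≤ k ∧ (OVp k ∨ k = Lm) := ⟨Lm, by omega, Or.inr rfl⟩
  obtain ⟨k₂, hk₂⟩ : ∃ k₂, k₂ = Nat.find hex := ⟨_, rfl⟩
  have hk₂s := Nat.find_spec hex
  rw [← hk₂] at hk₂s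
  have hk₂m : ∀ k, k < k₂ → ¬ (k₁ ≤ k ∧ (OVp k ∨ k = Lm)) := fun k hk =>
    Nat.find_min hex (by rw [← hk₂]; exact hk)
  have hk₂L : k₂ ≤ Lm := by
    by_contra hh
    push Not at hh
    exact hk₂m Lm hh ⟨by omega, Or.inr rfl⟩
  have hno : ∀ k, k₁ ≤ k → k < k₂ → ¬ OVp k := fun k h1 h2 h3 =>
    hk₂m k h2 ⟨h1, Or.inl h3⟩
  by_cases hgood : k₂ < Lm ∧ Pe (dbl p lam) (fun v =>
      ¬ Th D (m * k₂) (Mj (3 * e₀) L pos zx cz G Q 0 (zx (x v.1)) (x v.2))) ≤ 1 / 16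
  · obtain ⟨hk₂l, hPe⟩ := hgood
    have hO : OVp k₂ := by
      rcases hk₂s.2 with h | h
      · exact h
      · omega
    rw [hOVp] at hO
    obtain ⟨hO1, hO2⟩ := hO
    have e1 : m * (k₂ + 1) = m * k₂ + m := by ring
    rw [e1] at hO1 hO2
    refine ⟨Q, m * k₂, hQ, ⟨k₂, rfl⟩, hO1, ?_, hO2, hPe⟩
    have h1 : Lm ≤ k₂ + Cr * M := by
      have := hk₂s.1
      omega
    have h2 : m * Lm ≤ m * (k₂ + Cr * M) := Nat.mul_le_mul_left _ h1
    rw [hLm, he₀]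
    have e2 : m * (k₂ + Cr * M) = m * k₂ + Cr * (M * m) := by ring
    rw [← e2]
    exact h2
  · exfalso
    obtain ⟨e₂, he₂d⟩ : ∃ e₂ : ℝ, e₂ = η * e₀ / (m * Real.log 2) := ⟨_, rfl⟩
    have he₂0 : 0 ≤ e₂ := by
      rw [he₂d]
      positivity
    have he₂1 : e₂ ≤ 1 := by
      rw [he₂d, div_le_one hml, he₀r]
      have b2 := mul_le_mul_of_nonneg_left hη4 hden.le
      rw [hη₄d, mul_one_div, div_self hden.ne'] at b2
      have b3 : 8 * (M * η) ≤ 8 * Bc * (n + Cu + Cu * E + 1) * M * η := by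
        have b4 : 1 ≤ (n : ℝ) + Cu + Cu * E + 1 := by
          have : 0 ≤ (n : ℝ) + Cu + Cu * E := by positivity
          linarith only [this]
        have b5 : 1 ≤ Bc * ((n : ℝ) + Cu + Cu * E + 1) := one_le_mul_of_one_le_of_one_le hBc1 b4
        have b6 : 0 ≤ 8 * (M * η) := by positivity
        have e1 : 8 * Bc * (n + Cu + Cu * E + 1) * M * η =
          8 * (M * η) * (Bc * ((n : ℝ) + Cu + Cu * E + 1)) := by ring
        rw [e1]
        exact le_mul_of_one_le_right b6 b5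
      have b7 : M * η ≤ 1 / 8 := by linarith only [b2, b3]
      have e2 : η * (M * m) = M * η * m := by ring
      rw [e2]
      have b8 := mul_le_mul_of_nonneg_right b7 hm0.le
      have b9 : m * (1 / 2 : ℝ) ≤ m * Real.log 2 := mul_le_mul_of_nonneg_left hl2' hm0.le
      linarith only [hml, b8, b9]
    have hcov := cover H OVp Lm k₁ k₂ M A₀ w er e₂ hw5 (by
        have h1 : (w : ℝ) ^ 2 * (1 + e₂) ≤ w ^ 2 * 2 :=
          mul_le_mul_of_nonneg_left (by linarith only [he₂1]) (by positivity)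
        linarith only [hM3r, h1]) her0 he₂0 (by
        refine le_trans ?_ hBer
        refine mul_le_mul_of_nonneg_right ?_ her0
        rw [hBc]
        have : 0 ≤ 2 * (E : ℝ) * M := by positivity
        linarith only [this]) hH0 hHadd hHOV hk₂s.1 hk₂L hno (by
      intro k hk hkA
      have hk₂l : k₂ < Lm := by omega
      have hPe : ¬ (Pe (dbl p lam) (fun v =>
        ¬ Th D (m * k₂) (Mj (3 * e₀) L pos zx cz G Q 0 (zx (x v.1)) (x v.2))) ≤ 1 / 16) :=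
        fun h => hgood ⟨hk₂l, h⟩
      push Not at hPe
      have hmL' : m ∣ L := ⟨Lm, hLm⟩
      have h1 := hJC m e₀ L (m * k₂) Ω Λ Ξ Z β p lam x T pos A B zx zl cz G wz wl γ δ ε e₁ e₃ e Q
        hm2 he₀ hmL' hLE (he₁.trans (hmono hη2)) (he₃.trans (hmono hη2))
        (hγ.trans (hmono hη2)) (hε.trans hη2) (stepH_cast hF N₂ hκ₂) hwz hx hQ hcnt hdep hPe.le k
        (by
          rw [he₀]
          have e1 : m * k₂ + M * m = m * (k₂ + M) := by ring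
          rw [e1]
          exact Nat.mul_le_mul_left _ hk)
        (by
          rw [he₀]
          have e1 : m * k + A₀ * (M * m) = m * (k + A₀ * M) := by ring
          rw [e1]
          exact hmk hkA)
      obtain ⟨P, hP1, hP2, hP3⟩ := h1
      refine ⟨P, hP1, hP2, ?_⟩
      intro j hj1 hj2 hj3 hj4
      rw [hOVp] at hj3
      have h2 := hP3 (k + j) (hrw p x L pos (fun ξ => wz (zx ξ)) (m * k) (m * (k + j + 1)) +
        η * e₀) (by
          have e1 : k + j - k = j := by omega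
          rw [e1]
          exact hj1) (by omega) (OV_mono hj3.2 (hmono hη2))
        (hreg k (k + j + 1) (by omega) (hmk hj4))
      have e1 : (((k + j : ℕ) : ℝ) - k) = j := by
        push_cast
        ring
      rw [e1] at h2
      rw [hH, he₂d]
      simp only
      rw [← add_div, le_div_iff₀ hml]
      linarith only [h2])
    -- the mean rate
    have hrate' : H k₁ Lm ≤ (1 - c) * (Cr * M) := by
      rw [hH]
      simp only
      rw [div_le_iff₀ hml]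
      have e1 : m * k₁ = L - Cr * e₀ := by
        rw [hk₁, Nat.mul_sub, hLm, he₀]
        congr 1
        ring
      have e2 : m * Lm = L := hLm.symm
      rw [e1, e2]
      refine hrate.trans (le_of_eq ?_)
      rw [he₀r]
      ring
    have hk₁r : (k₁ : ℝ) = Lm - Cr * M := by
      rw [hk₁, Nat.cast_sub hCrM]
      push_cast
      ring
    have hsm : (2 * (Lm : ℝ) + 3) * er ≤ 1 := by
      refine le_trans ?_ hBer
      refine mul_le_mul_of_nonneg_right ?_ her0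
      rw [hBc]
      have h1 : (Lm : ℝ) ≤ E * M := by exact_mod_cast hLmE
      have h2 : 0 ≤ (A₀ : ℝ) * M := by positivity
      linarith only [h1, h2]
    have hcr : 2 * ((A₀ : ℝ) + 3) / c < Cr := by
      have h1 := Nat.le_ceil (2 * ((A₀ : ℝ) + 3) / c)
      have h2 : ((⌈2 * ((A₀ : ℝ) + 3) / c⌉₊ + u + 2 : ℕ) : ℝ) ≤ Cr := by exact_mod_cast hCr
      push_cast at h2
      have h3 : (0 : ℝ) ≤ u := Nat.cast_nonneg u
      linarith only [h1, h2]
    refine jnum (X := H k₁ Lm) hc hc1 hw0 hwc hA0 hcr hM2r ?_ hrate'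
    have e1 : (Lm : ℝ) - k₁ - M - A₀ * M - 1 = Cr * M - M - A₀ * M - 1 := by
      rw [hk₁r]
      ring
    rw [e1] at hcov
    linarith only [hcov, hsm]

/-- **JSTEP.** -/
theorem jstep_of (hQDE : QDEStmt) (hJC : JCStmt) (hJ2 : J2Stmt) : JSTEPStmt := by
  intro n D u C₀ c hn hC₀ hc hc1
  obtain ⟨Cq, Cc, hCq, hJ2⟩ := hJ2 n D u C₀ hn hC₀
  obtain ⟨w₀, hcore⟩ := jcore hQDE hJC n D u C₀ c hn hC₀ hc hc1
  refine ⟨w₀, ?_⟩
  intro w hw
  obtain ⟨Cr₀, hCr₀, hcore⟩ := hcore w hw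
  refine ⟨Cq, Cr₀, Cc, hCr₀, ?_⟩
  intro Cr hCr k₀ E hE
  obtain ⟨M₁, hcore⟩ := hcore Cr hCr k₀ E hE
  obtain ⟨M₂, hJ2⟩ := hJ2 Cr k₀ E hE
  refine ⟨max M₁ M₂, ?_⟩
  intro M hM
  obtain ⟨η₁, m₁, hη₁, hcore⟩ := hcore M (le_trans (le_max_left _ _) hM)
  obtain ⟨η₂, κ₂, N₂, m₂, hη₂, hκ₂, hJ2⟩ := hJ2 M (le_trans (le_max_right _ _) hM)
  refine ⟨min η₁ η₂, κ₂, N₂, max m₁ m₂, lt_min hη₁ hη₂, hκ₂, ?_⟩
  intro m e₀ L Ω Λ Ξ Z β _ p lam x T pos A B zx zl cz G wz wl γ δ ε e₁ e₃ e i₀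
    hm he₀ hmL hCrL hLE he₁ he₃ hγ hε hF hbad hi₀ hwz hT hx hreg hOV hrate
  have he₀0 : (0 : ℝ) ≤ e₀ := Nat.cast_nonneg _
  have hmono : min η₁ η₂ * e₀ ≤ η₂ * e₀ := mul_le_mul_of_nonneg_right (min_le_right _ _) he₀0
  obtain ⟨Q, r₂, hQ, h1, h2, h3, h4, h5⟩ := hcore (min η₁ η₂) κ₂ N₂ m e₀ L Ω Λ Ξ Z β p lam x T
    pos A B zx zl cz G wz wl γ δ ε e₁ e₃ e (min_le_left _ _) (le_trans (le_max_left _ _) hm) he₀
    hmL hCrL hLE he₁ he₃ hγ hε hF hbad hwz hT hx hreg hOV hrate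
  obtain ⟨Y, y, sl, q, Sc, g1, g2, g3⟩ := hJ2 m e₀ L r₂ Ω Λ Ξ Z β p lam x T pos A B zx zl cz G wz
    wl γ δ ε e₁ e₃ e Q i₀ (le_trans (le_max_right _ _) hm) he₀ hmL hLE h1 h2 h3
    (he₁.trans hmono) (he₃.trans hmono) (hγ.trans hmono) (hε.trans (min_le_right _ _)) hF hbad hi₀
    hwz (hT.trans hmono) hx (OV_mono h4 hmono) hQ h5
  refine ⟨Y, y, sl, q, Sc, g1.trans (le_of_eq ?_), g2, g3⟩
  rw [add_comm]

end Pool.KJ
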