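import Pool.Agent.H44.KJ.JStepR
import Pool.Agent.H5.KJ.JCT
import Pool.Agent.H77.KJ.Qde
import Pool.Agent.H82.KSP.J2T
import Pool.Agent.H82.KSP.J2R

/-!
# LEMMA J: the step, no hypothesis
-/

set_option autoImplicit false

namespace Pool.KJ

/-- **JSTEP**, no hypothesis left. -/
theorem jstep_thm : JSTEPStmt := jstep_of Pool.KS3.qde_thm jcs_thm Pool.KS3.j2_thm

/-- **JSTEPR**, no hypothesis left. -/
theorem jstepr_thm : JSTEPRStmt := jstepr_of Pool.KS3.qde_thm jcs_thm Pool.KS3.j2R_thm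

end Pool.KJ
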