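import Pool.Agent.H44.KJ.JCore
import Pool.Agent.H72.KJ.StmtsR

/-!
# LEMMA J: the step with the implicit equation of the label
-/

set_option autoImplicit false

namespace Pool.KJ

open Finset Real
open Pool.Agent.H49.Ent Pool.Agent.H32.Dense Pool.STK Pool.KAF Pool.KAL Pool.KST Pool.KS3

/-- **JSTEPR.** -/
theorem jstepr_of (hQDE : QDEStmt) (hJC : JCStmt) (hJ2 : J2RStmt) : JSTEPRStmt := by
  intro n D u C₀ hn hC₀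
  obtain ⟨Cq, Cc, hCq, hCc, hJ2⟩ := hJ2 n D u C₀ hn hC₀
  refine ⟨Cc, ?_⟩
  intro c hc hc1
  obtain ⟨w₀, hcore⟩ := jcore hQDE hJC n D u C₀ c hn hC₀ hc hc1
  refine ⟨w₀, ?_⟩
  intro w hw
  obtain ⟨Cr₀, hCr₀, hcore⟩ := hcore w hw
  refine ⟨Cq, Cr₀, Cc, hCr₀, hCc, ?_⟩
  intro Cr hCr k₀ E hE
  obtain ⟨M₁, hcore⟩ := hcore Cr hCr k₀ E hE
  obtain ⟨M₂, hJ2⟩ := hJ2 Cr k₀ E hE
  refine ⟨max M₁ M₂, ?_⟩
  intro M hM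
  obtain ⟨η₁, m₁, hη₁, hcore⟩ := hcore M (le_trans (le_max_left _ _) hM)
  obtain ⟨η₂, κ₂, N₂, m₂, hη₂, hκ₂, hJ2⟩ := hJ2 M (le_trans (le_max_right _ _) hM)
  refine ⟨min η₁ η₂, κ₂, N₂, max m₁ m₂, lt_min hη₁ hη₂, hκ₂, ?_⟩
  intro m e₀ L Ω Λ Ξ Z β _ p lam x T pos A B zx zl cz G wz wl γ δ ε e₁ e₃ e i₀
    hm he₀ hmL hCrL hLE he₁ he₃ hγ hε hF hbad hi₀ hwz hT hx hreg hOV hrate
  have he₀0 : (0 : ℝ) ≤ e₀ := Nat.cast_nonneg _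
  have hmono : min η₁ η₂ * e₀ ≤ η₂ * e₀ := mul_le_mul_of_nonneg_right (min_le_right _ _) he₀0
  obtain ⟨Q, r₂, hQ, h1, h2, h3, h4, h5⟩ := hcore (min η₁ η₂) κ₂ N₂ m e₀ L Ω Λ Ξ Z β p lam x T
    pos A B zx zl cz G wz wl γ δ ε e₁ e₃ e (min_le_left _ _) (le_trans (le_max_left _ _) hm) he₀
    hmL hCrL hLE he₁ he₃ hγ hε hF hbad hwz hT hx hreg hOV hrate
  obtain ⟨Y, y, sl, q, Sc, Rp, g1, g2, g3, g4⟩ := hJ2 m e₀ L r₂ Ω Λ Ξ Z β p lam x T pos A B zx zl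
    cz G wz wl γ δ ε e₁ e₃ e Q i₀ (le_trans (le_max_right _ _) hm) he₀ hmL hLE h1 h2 h3
    (he₁.trans hmono) (he₃.trans hmono) (hγ.trans hmono) (hε.trans (min_le_right _ _)) hF hbad hi₀
    hwz (hT.trans hmono) hx (OV_mono h4 hmono) hQ h5
  refine ⟨Y, y, sl, q, Sc, Rp, g1.trans (le_of_eq ?_), g2, g3, g4⟩
  rw [add_comm]

end Pool.KJ
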